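import Pool.Agent.Helper92.BO.GoalsB

namespace Pool.Agent.Helper33.BO

open Pool.Agent.Helper92.BO MeasureTheory Function

/-- The relation between two systems of bounds. -/
def Rel (G : SimpleGraph ℕ) (s : ℕ → ℝ) (l κ : ℝ) (z : ℂ) (L : List ℕ) (b b' : ℕ → ℝ) : Prop :=
  ∃ D : ℂ, ZC G z L b' * ZR G l L b = Complex.exp D * (ZC G z L b * ZR G l L b') ∧
    ‖D‖ ≤ κ * (JR G s l L b' - JR G s l L b)

theorem rel_refl (G : SimpleGraph ℕ) (s : ℕ → ℝ) (l κ : ℝ) (z : ℂ) (L : List ℕ) (b : ℕ → ℝ) :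
    Rel G s l κ z L b b := ⟨0, by simp, by simp⟩

theorem rel_trans {G : SimpleGraph ℕ} {s : ℕ → ℝ} {l κ : ℝ} {z : ℂ} {L : List ℕ}
    {b₁ b₂ b₃ : ℕ → ℝ} (hz : ZC G z L b₂ ≠ 0) (hr : ZR G l L b₂ ≠ 0)
    (h₁ : Rel G s l κ z L b₁ b₂) (h₂ : Rel G s l κ z L b₂ b₃) : Rel G s l κ z L b₁ b₃ := by
  obtain ⟨D₁, e₁, n₁⟩ := h₁
  obtain ⟨D₂, e₂, n₂⟩ := h₂
  refine ⟨D₁ + D₂, ?_, ?_⟩
  · have hr' : ((ZR G l L b₂ : ℝ) : ℂ) ≠ 0 := by exact_mod_cast hr
    have hne : ZC G z L b₂ * ((ZR G l L b₂ : ℝ) : ℂ) ≠ 0 := mul_ne_zero hz hr'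
    apply mul_left_cancel₀ hne
    rw [Complex.exp_add]
    calc ZC G z L b₂ * ((ZR G l L b₂ : ℝ) : ℂ) * (ZC G z L b₃ * ((ZR G l L b₁ : ℝ) : ℂ))
        = (ZC G z L b₃ * ((ZR G l L b₂ : ℝ) : ℂ)) * (ZC G z L b₂ * ((ZR G l L b₁ : ℝ) : ℂ)) := by
          ring
      _ = _ := by rw [e₁, e₂]; ring
  · calc ‖D₁ + D₂‖ ≤ ‖D₁‖ + ‖D₂‖ := norm_add_le _ _
      _ ≤ κ * (JR G s l L b₂ - JR G s l L b₁) + κ * (JR G s l L b₃ - JR G s l L b₂) :=
          add_le_add n₁ n₂
      _ = _ := by ring

theorem cut_upd (G : SimpleGraph ℕ) {v : ℕ} {L : List ℕ} (hv : v ∉ L) (b : ℕ → ℝ) (c y : ℝ) :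
    ∀ u ∈ L, cut G v c (update b v y) u = cut G v c b u := by
  intro u hu
  have hne : u ≠ v := fun h => hv (h ▸ hu)
  simp only [cut, update_of_ne hne]

theorem zc_head (hLOC : LocStmt) (G : SimpleGraph ℕ) (z : ℂ) {v : ℕ} {L : List ℕ} (hv : v ∉ L)
    (b : ℕ → ℝ) (y : ℝ) : ZC G z (v :: L) (update b v y) =
      ZCf z (fun x => ZC G z L (cut G v (1 - x) b)) y := by
  rw [ZC, ZCf, update_self]
  refine intervalIntegral.integral_congr fun x _ => ?_
  rw [(hLOC G (fun _ => 1) z 1 L _ _ (cut_upd G hv b (1 - x) y)).1]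

theorem zr_head (hLOC : LocStmt) (G : SimpleGraph ℕ) (l : ℝ) {v : ℕ} {L : List ℕ} (hv : v ∉ L)
    (b : ℕ → ℝ) (y : ℝ) : ZR G l (v :: L) (update b v y) =
      Zf l (fun x => ZR G l L (cut G v (1 - x) b)) y := by
  rw [ZR, Zf, update_self]
  refine intervalIntegral.integral_congr fun x _ => ?_
  simp only [rho]
  rw [(hLOC G (fun _ => 1) 0 l L _ _ (cut_upd G hv b (1 - x) y)).2.1]

theorem chi (hCHS : ChsStmt) (hCSN : CsnStmt) (hCSF : CsfStmt) (hKID : KidStmt) (hPBD : PbdStmt)
    (hKPM : KpmStmt) (hPRM : PrmStmt) (hLOC : LocStmt) (hPOS : PosStmt) : ChiStmt := by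
  intro G s l κ Δ z hs hdeg hl0 hl1 hκ0 hκ1 hz
  -- induction on the length
  suffices H : ∀ (n : ℕ) (L : List ℕ), L.length = n → L.Nodup → HC G s l κ z L from
    fun L hL => H L.length L rfl hL
  intro n
  induction n with
  | zero =>
    intro L hL _
    have hL0 : L = [] := List.length_eq_zero_iff.mp hL
    subst hL0
    refine ⟨fun b _ => by simp [ZC], fun b b' _ _ _ => ⟨0, by simp [ZC, ZR], by simp [JR, KR]⟩⟩
  | succ n ih =>
    intro L hL hnd
    -- positivity of ZR
    have hR : ∀ b, Good L b → ZR G l L b ≠ 0 := fun b hb =>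
      ((hPOS G l L b hl0 hl1).2 fun u hu => ⟨(hb u hu).1, (hb u hu).2.1⟩).ne'
    have hIn : ∀ {M : List ℕ} {b : ℕ → ℝ}, Good M b → In01 M b := fun {M b} hb u hu =>
      ⟨(hb u hu).1.le, (hb u hu).2.1⟩
    -- nonvanishing
    have hNZ : ∀ b, Good L b → ZC G z L b ≠ 0 := by
      intro b hb
      cases L with
      | nil => simp [ZC]
      | cons v M =>
        have hvM : v ∉ M := (List.nodup_cons.mp hnd).1
        have hMn : M.Nodup := (List.nodup_cons.mp hnd).2
        have hMl : M.length = n := by simpa using hL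
        have hbM : Good M b := fun u hu => hb u (List.mem_cons_of_mem _ hu)
        have hSt := hCHS G s l κ Δ z hs hdeg hl0 hl1 hκ0 hκ1 hz M v b hMn hvM hbM (ih M hMl hMn)
        have h := ((hCSN Δ l κ z _ _ _ hSt).2 (b v) (hb v (List.mem_cons_self)).1
          (hb v (List.mem_cons_self)).2.1).2.1
        rw [← zc_head hLOC G z hvM b (b v), update_eq_self] at h
        exact h
    refine ⟨hNZ, ?_⟩
    -- one coordinate
    have hOne : ∀ (u : ℕ), u ∈ L → ∀ (b : ℕ → ℝ), Good L b → ∀ y' y : ℝ, 0 < y' → y' ≤ 1 →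
        y' ≠ 1 / 2 → 0 < y → y ≤ 1 → y ≠ 1 / 2 → s u * y' ≤ s u * y →
        Rel G s l κ z L (update b u y') (update b u y) := by
      intro u hu b hb y' y hy'0 hy'1 hy'h hy0 hy1 hyh hle
      set M := L.erase u with hM
      have hperm : L.Perm (u :: M) := List.perm_cons_erase hu
      have huM : u ∉ M := by
        rw [hM]; exact hnd.not_mem_erase
      have hMn : M.Nodup := hnd.erase u
      have hMl : M.length = n := by
        rw [hM, List.length_erase_of_mem hu, hL]; rfl
      have hbM : Good M b := fun w hw => hb w (List.mem_of_mem_erase hw)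
      have hSt := hCHS G s l κ Δ z hs hdeg hl0 hl1 hκ0 hκ1 hz M u b hMn huM hbM (ih M hMl hMn)
      have hGood : ∀ t : ℝ, 0 < t → t ≤ 1 → t ≠ 1 / 2 → Good L (update b u t) := by
        intro t h0 h1 h2 w hw
        by_cases hwu : w = u
        · subst hwu; rw [update_self]; exact ⟨h0, h1, h2⟩
        · rw [update_of_ne hwu]; exact hb w hw
      have hZ : ∀ t : ℝ, 0 < t → t ≤ 1 → t ≠ 1 / 2 → ZC G z L (update b u t) =
          ZCf z (fun x => ZC G z M (cut G u (1 - x) b)) t := by
        intro t h0 h1 h2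
        rw [(hPRM G z l L (u :: M) _ hperm (hIn (hGood t h0 h1 h2))).1, zc_head hLOC G z huM]
      have hZr : ∀ t : ℝ, 0 < t → t ≤ 1 → t ≠ 1 / 2 → ZR G l L (update b u t) =
          Zf l (fun x => ZR G l M (cut G u (1 - x) b)) t := by
        intro t h0 h1 h2
        rw [(hPRM G z l L (u :: M) _ hperm (hIn (hGood t h0 h1 h2))).2, zr_head hLOC G l huM]
      have hJ : ∀ t : ℝ, 0 < t → t ≤ 1 → t ≠ 1 / 2 → JR G s l L (update b u t) =
          JR G s l (u :: M) (update b u t) := by
        intro t h0 h1 h2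
        rw [JR, JR, hKPM G s l hs hl0 hl1 L (u :: M) _ hperm (hGood t h0 h1 h2),
          (hPRM G z l L (u :: M) _ hperm (hIn (hGood t h0 h1 h2))).2]
      -- the increment for an increasing pair
      have hInc : ∀ t' t : ℝ, 0 < t' → t' < t → t ≤ 1 → t' ≠ 1 / 2 → t ≠ 1 / 2 →
          ∃ D : ℂ, ZC G z L (update b u t) * ZR G l L (update b u t') =
            Complex.exp D * (ZC G z L (update b u t') * ZR G l L (update b u t)) ∧
            ‖D‖ ≤ κ * (s u * (JR G s l L (update b u t) - JR G s l L (update b u t'))) := by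
        intro t' t h0' hlt h1 h2' h2
        have h0 : 0 < t := h0'.trans hlt
        have h1' : t' ≤ 1 := hlt.le.trans h1
        obtain ⟨p0, p1, p2⟩ := hPBD G s l Δ hs hdeg hl0 hl1 M u b hMn huM hbM t' t h0' hlt h1 h2' h2
        have hk := hKID G s l hs hl0 hl1 M u b huM hbM t' t h0' hlt h1
        obtain ⟨D, hD, hn⟩ := hCSF Δ l κ z _ _ _ hSt t' t _ h0' hlt h1 h2' h2 p0 p1 p2 hk
        refine ⟨D, ?_, ?_⟩
        · rw [hZ t h0 h1 h2, hZ t' h0' h1' h2', hZr t h0 h1 h2, hZr t' h0' h1' h2']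
          exact hD
        · rw [hJ t h0 h1 h2, hJ t' h0' h1' h2']
          exact hn
      rcases hs.pm u with h1 | h1
      · rw [h1, one_mul, one_mul] at hle
        rcases hle.eq_or_lt with heq | hlt
        · rw [heq]; exact rel_refl _ _ _ _ _ _ _
        · obtain ⟨D, hD, hn⟩ := hInc y' y hy'0 hlt hy1 hy'h hyh
          refine ⟨D, hD, ?_⟩
          rw [h1, one_mul] at hn
          exact hn
      · have hle' : y ≤ y' := by rw [h1] at hle; linarith
        rcases hle'.eq_or_lt with heq | hlt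
        · rw [heq]; exact rel_refl _ _ _ _ _ _ _
        · obtain ⟨D, hD, hn⟩ := hInc y y' hy0 hlt hy'1 hyh hy'h
          refine ⟨-D, ?_, ?_⟩
          · rw [hD, ← mul_assoc, ← Complex.exp_add, neg_add_cancel, Complex.exp_zero, one_mul]
          · rw [norm_neg]
            refine hn.trans (le_of_eq ?_)
            rw [h1]; ring
    -- several coordinates
    intro b b' hb hb' hle
    classical
    have hMany : ∀ M : List ℕ, M.Nodup → (∀ u ∈ M, u ∈ L) →
        Rel G s l κ z L b (fun u => if u ∈ M then b' u else b u) := by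
      intro M
      induction M with
      | nil =>
        intro _ _
        have : (fun u => if u ∈ ([] : List ℕ) then b' u else b u) = b := by
          funext u; simp
        rw [this]
        exact rel_refl _ _ _ _ _ _ _
      | cons u M ihM =>
        intro hMn hML
        have huM : u ∉ M := (List.nodup_cons.mp hMn).1
        have huL : u ∈ L := hML u List.mem_cons_self
        have h1 := ihM (List.nodup_cons.mp hMn).2 fun w hw => hML w (List.mem_cons_of_mem _ hw)
        set h : ℕ → ℝ := fun w => if w ∈ M then b' w else b w with hh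
        have hGh : Good L h := by
          intro w hw
          rw [hh]
          by_cases hwM : w ∈ M
          · simp only [hwM, if_true]; exact hb' w hw
          · simp only [hwM, if_false]; exact hb w hw
        have e1 : (fun w => if w ∈ (u :: M) then b' w else b w) = update h u (b' u) := by
          funext w
          by_cases hwu : w = u
          · subst hwu; simp
          · rw [update_of_ne hwu, hh]
            simp [hwu]
        have e2 : h = update h u (b u) := by
          have : h u = b u := by rw [hh]; simp [huM]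
          rw [← this, update_eq_self]
        rw [e1]
        refine rel_trans (hNZ h hGh) (hR h hGh) h1 ?_
        have := hOne u huL h hGh (b u) (b' u) (hb u huL).1 (hb u huL).2.1 (hb u huL).2.2
          (hb' u huL).1 (hb' u huL).2.1 (hb' u huL).2.2 (hle u huL)
        rw [← e2] at this
        exact this
    obtain ⟨D, hD, hn⟩ := hMany L hnd fun u hu => hu
    have hag : ∀ u ∈ L, (fun u => if u ∈ L then b' u else b u) u = b' u := by
      intro u hu; simp [hu]
    obtain ⟨l1, l2, l3⟩ := hLOC G s z l L _ _ hag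
    refine ⟨D, ?_, ?_⟩
    · rw [l1, l2] at hD; exact hD
    · rw [JR, JR] at hn
      rw [l2, l3] at hn
      rw [JR, JR]; exact hn

end Pool.Agent.Helper33.BO
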